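import Pool.Agent.H83.HM.Cor

open Polynomial MeasureTheory Filter Topology

namespace HM

theorem cor_range_add (P : ℂ[X]) (f : ℕ → ℂ) (k N D : ℕ) (hN : P.natDegree < N) :
    cor (X ^ D * P) f k = ∑ j ∈ Finset.range N, P.coeff j * f (D + j + k) := by
  have hdeg : (X ^ D * P).natDegree < D + N := by
    calc (X ^ D * P).natDegree ≤ (X ^ D : ℂ[X]).natDegree + P.natDegree := natDegree_mul_le
      _ ≤ D + P.natDegree := by gcongr; exact natDegree_X_pow_le D
      _ < D + N := by omega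
  rw [cor_range _ _ _ (D + N) hdeg, Finset.sum_range_add]
  have h2 : ∑ j ∈ Finset.range D, (X ^ D * P).coeff j * f (j + k) = 0 := by
    refine Finset.sum_eq_zero (fun j hj => ?_)
    rw [Finset.mem_range] at hj
    rw [Polynomial.coeff_X_pow_mul', if_neg (by omega), zero_mul]
  rw [h2, zero_add]
  refine Finset.sum_congr rfl (fun j _ => ?_)
  rw [Polynomial.coeff_X_pow_mul', if_pos (by omega)]
  congr 2
  omega

/-- shifted against a short sequence -/
theorem cor_shift_zero (P F : ℂ[X]) (D k : ℕ) (hD : F.natDegree < D) :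
    cor (X ^ D * P) F.coeff k = 0 := by
  rw [cor_range_add P F.coeff k (P.natDegree + 1) D (by omega)]
  refine Finset.sum_eq_zero (fun j _ => ?_)
  rw [Polynomial.coeff_eq_zero_of_natDegree_lt (by omega : F.natDegree < D + j + k), mul_zero]

theorem cor_shift_shift (P U : ℂ[X]) (D k : ℕ) :
    cor (X ^ D * P) (X ^ D * U).coeff k = cor P U.coeff k := by
  rw [cor_range_add P _ k (P.natDegree + 1) D (by omega),
    cor_range P _ k (P.natDegree + 1) (by omega)]
  refine Finset.sum_congr rfl (fun j _ => ?_)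
  rw [Polynomial.coeff_X_pow_mul', if_pos (by omega)]
  congr 2
  omega

theorem cor_C_mul (P : ℂ[X]) (f : ℕ → ℂ) (a : ℂ) (k : ℕ) :
    cor (C a * P) f k = a * cor P f k := by
  have h1 : (C a * P).natDegree < P.natDegree + 1 :=
    Nat.lt_succ_of_le (natDegree_C_mul_le a P)
  rw [cor_range _ _ _ _ h1, cor_range P _ k (P.natDegree + 1) (by omega), Finset.mul_sum]
  refine Finset.sum_congr rfl (fun j _ => ?_)
  rw [coeff_C_mul]; ring

theorem cor_mul_C (P U : ℂ[X]) (a : ℂ) (k : ℕ) :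
    cor P (C a * U).coeff k = a * cor P U.coeff k := by
  unfold cor
  rw [Finset.mul_sum]
  refine Finset.sum_congr rfl (fun j _ => ?_)
  rw [coeff_C_mul]; ring

theorem Bd.C_mul {r : ℝ} {P : ℂ[X]} {B : ℝ} (h : Bd r P.coeff B) (c : ℂ) :
    Bd r (C c * P).coeff (‖c‖ ^ r * B) := by
  have := Bd.smul h c
  intro n
  have h2 := this n
  simp only [coeff_C_mul]
  exact h2

/-- the choice of `n` -/
theorem choose_n (C0 q e : ℝ) (hq : 2 < q) (he : 0 < e) :
    ∃ n : ℕ, 1 ≤ n ∧ (C0 * (n : ℝ) ^ (1 - q / 2)) ^ (2 / q) ≤ e := by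
  have h1 : Tendsto (fun n : ℕ => (n : ℝ) ^ (-(q / 2 - 1))) atTop (𝓝 0) :=
    (tendsto_rpow_neg_atTop (by linarith : 0 < q / 2 - 1)).comp tendsto_natCast_atTop_atTop
  have h2 : Tendsto (fun n : ℕ => (C0 * (n : ℝ) ^ (-(q / 2 - 1))) ^ (2 / q)) atTop (𝓝 0) := by
    have h3 := (h1.const_mul C0).rpow_const (p := 2 / q) (Or.inr (by positivity))
    rw [mul_zero, Real.zero_rpow (by positivity)] at h3
    exact h3
  have h4 := (h2.eventually (ge_mem_nhds he)).and (eventually_ge_atTop 1)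
  obtain ⟨n, hn1, hn2⟩ := h4.exists
  refine ⟨n, hn2, ?_⟩
  rw [show (1 - q / 2) = -(q / 2 - 1) by ring]
  exact hn1

set_option maxHeartbeats 1000000 in
theorem STEP_proved (hF : S_FLN) (hC : S_CORR) (hSp : S_SPRN) (hY : S_YNG) (hT : S_TOEP) :
    S_STEP := by
  intro p hp1 hp2
  have hp0 : 0 < p := by linarith
  have hpp : 0 < p - 1 := by linarith
  set q : ℝ := p / (p - 1) with hq
  have hq2 : 2 < q := by
    rw [hq, lt_div_iff₀ hpp]; linarith
  have hq0 : 0 < q := by linarith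
  obtain ⟨C0, hC0, hfl⟩ := hF p hp1
  refine ⟨max 1 (C0 ^ p), le_max_left _ _, ?_⟩
  intro m A Q F u B η hη
  -- two-sided correlation bounds
  have hB2 : ∀ i, ∃ b, 0 ≤ b ∧ Bd 2 (Q.reverse * u i).coeff b := fun i => exists_Bd 2 (by norm_num) _
  choose b2 hb2 hb2' using hB2
  have hU2 : ∀ i, ∃ b, 0 ≤ b ∧ Bd 2 (u i).coeff b := fun i => exists_Bd 2 (by norm_num) _
  choose U2 hU2 hU2' using hU2
  set SA : ℝ := ∑ j ∈ A.support, ‖A.coeff j‖ with hSA
  have hSA0 : 0 ≤ SA := Finset.sum_nonneg fun _ _ => norm_nonneg _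
  set b : ℝ := ∑ i, b2 i with hbdef
  have hb0 : 0 ≤ b := Finset.sum_nonneg fun i _ => hb2 i
  have hbi : ∀ i, b2 i ≤ b := fun i =>
    Finset.single_le_sum (f := b2) (fun i _ => hb2 i) (Finset.mem_univ i)
  set U : ℝ := ∑ i, U2 i with hUdef
  have hU0 : 0 ≤ U := Finset.sum_nonneg fun i _ => hU2 i
  have hUi : ∀ i, U2 i ≤ U := fun i =>
    Finset.single_le_sum (f := U2) (fun i _ => hU2 i) (Finset.mem_univ i)
  -- the parameters
  set η' : ℝ := min 1 (η / (4 * (b + 1))) with hη'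
  have hη'0 : 0 < η' := lt_min one_pos (by positivity)
  have hη'1 : η' ≤ 1 := min_le_left _ _
  have hη'2 : η' * (4 * (b + 1)) ≤ η := by
    have : η' ≤ η / (4 * (b + 1)) := min_le_right _ _
    rwa [le_div_iff₀ (by positivity)] at this
  obtain ⟨n, hn1, hn⟩ := choose_n C0 q (η / (16 * (SA ^ 2 * U + 1))) hq2 (by positivity)
  obtain ⟨c, hcdeg, hcp, hcq, hcflat⟩ := hfl n η' hn1 hη'0 hη'1
  rw [← hq] at hcq
  have hn0 : (0:ℝ) < n := by exact_mod_cast hn1
  set W : ℝ := C0 * (n : ℝ) ^ (1 - q / 2) with hW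
  have hW0 : 0 < W := by positivity
  -- `μ = W ^ (-1/q)`, `ν = μ⁻¹ = W ^ (1/q)`
  set μ : ℝ := W ^ (-(1 / q)) with hμ
  set ν : ℝ := W ^ (1 / q) with hν
  have hμ0 : 0 < μ := by positivity
  have hν0 : 0 < ν := by positivity
  have hμν : μ * ν = 1 := by
    rw [hμ, hν, ← Real.rpow_add hW0]; simp
  have hμq : μ ^ q * W = 1 := by
    rw [hμ, ← Real.rpow_mul hW0.le, show -(1 / q) * q = -1 by field_simp, Real.rpow_neg_one]
    field_simp
  have hν2 : ν ^ (2:ℝ) = W ^ (2 / q) := by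
    rw [hν, ← Real.rpow_mul hW0.le]; congr 1; ring
  have hqp : p / q = p - 1 := by
    rw [hq]; field_simp
  have hνp : ν ^ p * (C0 * (n : ℝ) ^ (1 - p / 2)) = C0 ^ p := by
    rw [hν, ← Real.rpow_mul hW0.le, show 1 / q * p = p - 1 by rw [← hqp]; ring, hW,
      Real.mul_rpow hC0.le (by positivity), ← Real.rpow_mul hn0.le]
    have e1 : (1 - q / 2) * (p - 1) = -(1 - p / 2) := by
      rw [hq]; field_simp; ring
    rw [e1]
    have e2 : (n:ℝ) ^ (-(1 - p / 2)) * (n:ℝ) ^ (1 - p / 2) = 1 := by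
      rw [← Real.rpow_add hn0]; simp
    have e3 : C0 ^ (p - 1) * C0 = C0 ^ p := by
      conv_lhs => rw [← Real.rpow_one C0]
      rw [← Real.rpow_mul hC0.le, ← Real.rpow_add hC0]
      congr 1; ring
    calc C0 ^ (p - 1) * (n:ℝ) ^ (-(1 - p / 2)) * (C0 * (n:ℝ) ^ (1 - p / 2))
        = (C0 ^ (p - 1) * C0) * ((n:ℝ) ^ (-(1 - p / 2)) * (n:ℝ) ^ (1 - p / 2)) := by ring
      _ = C0 ^ p := by rw [e2, e3, mul_one]
  -- the spreading and shift parameters
  set T : ℕ := Q.natDegree + ∑ i, (u i).natDegree + 1 with hTdef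
  have hTQ : Q.natDegree < T := by omega
  have hTu : ∀ i, (u i).natDegree < T := by
    intro i
    have := Finset.single_le_sum (f := fun i => (u i).natDegree) (fun i _ => Nat.zero_le _)
      (Finset.mem_univ i)
    omega
  have hT0 : 0 < T := by omega
  set D : ℕ := B + ∑ i, (F i).natDegree + 1 with hDdef
  have hDB : B < D := by omega
  have hDF : ∀ i, (F i).natDegree < D := by
    intro i
    have := Finset.single_le_sum (f := fun i => (F i).natDegree) (fun i _ => Nat.zero_le _)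
      (Finset.mem_univ i)
    omega
  set cc : ℂ[X] := c.map (starRingEnd ℂ) with hcc
  have hccB : Bd q cc.coeff W := by
    intro k
    have : ∀ j, ‖cc.coeff j‖ = ‖c.coeff j‖ := by
      intro j
      rw [hcc, coeff_map, RCLike.norm_conj]
    simp only [this]
    exact hcq k
  set Q0 : ℂ[X] := expand ℂ T cc * Q with hQ0
  set u0 : Fin m → ℂ[X] := fun i => expand ℂ T c * u i with hu0
  refine ⟨X ^ D * (C (μ : ℂ) * Q0), fun i => X ^ D * (C (ν : ℂ) * u0 i), ?_, ?_, ?_, ?_, ?_⟩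
  · intro k hk
    rw [coeff_X_pow_mul', if_neg (by omega)]
  · intro i k hk
    rw [coeff_X_pow_mul', if_neg (by omega)]
  · intro N hN
    have h1 := hSp cc Q T q W N hTQ hq0 hccB hN
    have h2 := Bd.shift hq0 (Bd.C_mul h1 (μ : ℂ)) D
    refine Bd.mono h2 (le_of_eq ?_)
    rw [Complex.norm_real, Real.norm_eq_abs, abs_of_pos hμ0, ← mul_assoc, hμq, one_mul]
  · intro i N hN
    have h1 := hSp c (u i) T p _ N (hTu i) hp0 hcp hN
    have h2 := Bd.shift hp0 (Bd.C_mul h1 (ν : ℂ)) D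
    refine Bd.mono h2 ?_
    rw [Complex.norm_real, Real.norm_eq_abs, abs_of_pos hν0, ← mul_assoc, hνp]
    exact mul_le_mul_of_nonneg_right (le_max_right _ _) hN.nonneg
  · intro i
    -- the two errors
    have hE1 := hC c Q (u i) T η' (b2 i) hT0 hη'0.le hcflat (hb2' i)
    have hbig : ∀ z : ℂ, ‖z‖ = 1 → ‖(expand ℂ T c).eval z‖ ≤ 2 := by
      intro z hz
      rw [expand_eval]
      have hz' : ‖z ^ T‖ = 1 := by rw [norm_pow, hz, one_pow]
      have h1 := hcflat _ hz'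
      have h2 := (abs_le.1 h1).2
      nlinarith [norm_nonneg (eval (z ^ T) c)]
    have h0 := hT (expand ℂ T c) (u i) 2 (U2 i) (by norm_num) hbig (hU2' i)
    have h01 := Bd.shift (by norm_num : (0:ℝ) < 2) (Bd.C_mul h0 (ν : ℂ)) D
    have hE2 := hY A _ _ (by have := hU2 i; positivity) h01
    have hE := Bd.add2 hE1 hE2
    refine Bd.mono ?_ (?_ : 2 * (η' ^ 2 * b2 i) +
      2 * (SA ^ 2 * (‖(ν : ℂ)‖ ^ (2:ℝ) * (2 ^ 2 * U2 i))) ≤ η)
    · convert hE using 2 with k
      rw [cor_add_left, cor_add_right, cor_add_right, cor_shift_zero _ _ _ _ (hDF i),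
        cor_shift_shift, cor_C_mul, cor_mul_C, ← mul_assoc (μ : ℂ) (ν : ℂ), ← Complex.ofReal_mul,
        hμν, Complex.ofReal_one, one_mul]
      ring
    · rw [Complex.norm_real, Real.norm_eq_abs, abs_of_pos hν0, hν2]
      have k1 : 2 * (η' ^ 2 * b2 i) ≤ η / 2 := by
        have e1 : η' ^ 2 ≤ η' := by nlinarith
        have e2 : η' ^ 2 * b2 i ≤ η' * b :=
          mul_le_mul e1 (hbi i) (hb2 i) hη'0.le
        nlinarith
      have k2 : 2 * (SA ^ 2 * (W ^ (2 / q) * (2 ^ 2 * U2 i))) ≤ η / 2 := by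
        have e1 : SA ^ 2 * U2 i ≤ SA ^ 2 * U := mul_le_mul_of_nonneg_left (hUi i) (sq_nonneg _)
        have e2 : W ^ (2 / q) * (16 * (SA ^ 2 * U + 1)) ≤ η := by
          rwa [le_div_iff₀ (by positivity)] at hn
        have e3 : 0 ≤ W ^ (2 / q) := by positivity
        have e4 : W ^ (2 / q) * (SA ^ 2 * U2 i) ≤ W ^ (2 / q) * (SA ^ 2 * U) :=
          mul_le_mul_of_nonneg_left e1 e3
        have e5 : 2 * (SA ^ 2 * (W ^ (2 / q) * (2 ^ 2 * U2 i))) =
            8 * (W ^ (2 / q) * (SA ^ 2 * U2 i)) := by ring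
        have e6 : W ^ (2 / q) * (16 * (SA ^ 2 * U + 1)) =
            16 * (W ^ (2 / q) * (SA ^ 2 * U)) + 16 * W ^ (2 / q) := by ring
        rw [e5]
        rw [e6] at e2
        linarith
      linarith

end HM
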