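import Pool.Agent.H67.HM.Stm

open Polynomial MeasureTheory Filter Topology

namespace HM

/-! Elementary facts on `cor` and `Bd`. -/

theorem cor_range (A : ℂ[X]) (f : ℕ → ℂ) (k N : ℕ) (hN : A.natDegree < N) :
    cor A f k = ∑ j ∈ Finset.range N, A.coeff j * f (j + k) := by
  unfold cor
  apply Finset.sum_subset
  · intro j hj
    rw [Finset.mem_range]
    exact lt_of_le_of_lt (Polynomial.le_natDegree_of_mem_supp j hj) hN
  · intro j _ hj
    rw [Polynomial.notMem_support_iff.1 hj, zero_mul]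

theorem cor_add_left (A A' : ℂ[X]) (f : ℕ → ℂ) (k : ℕ) :
    cor (A + A') f k = cor A f k + cor A' f k := by
  set N := max (max A.natDegree A'.natDegree) (A + A').natDegree + 1 with hN
  have h1 : A.natDegree < N := by
    rw [hN]; exact Nat.lt_succ_of_le ((le_max_left _ _).trans (le_max_left _ _))
  have h2 : A'.natDegree < N := by
    rw [hN]; exact Nat.lt_succ_of_le ((le_max_right _ _).trans (le_max_left _ _))
  have h3 : (A + A').natDegree < N := by
    rw [hN]; exact Nat.lt_succ_of_le (le_max_right _ _)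
  rw [cor_range _ _ _ N h1, cor_range _ _ _ N h2, cor_range _ _ _ N h3, ← Finset.sum_add_distrib]
  refine Finset.sum_congr rfl (fun j _ => ?_)
  rw [Polynomial.coeff_add]; ring

theorem cor_add_right (A : ℂ[X]) (F F' : ℂ[X]) (k : ℕ) :
    cor A (F + F').coeff k = cor A F.coeff k + cor A F'.coeff k := by
  unfold cor
  rw [← Finset.sum_add_distrib]
  refine Finset.sum_congr rfl (fun j _ => ?_)
  rw [Polynomial.coeff_add]; ring

theorem Bd.mono {r : ℝ} {f : ℕ → ℂ} {B B' : ℝ} (h : Bd r f B) (hB : B ≤ B') : Bd r f B' :=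
  fun n => (h n).trans hB

theorem Bd.nonneg {r : ℝ} {f : ℕ → ℂ} {B : ℝ} (h : Bd r f B) : 0 ≤ B := by
  simpa using h 0

theorem Bd.smul {r : ℝ} {f : ℕ → ℂ} {B : ℝ} (h : Bd r f B) (c : ℂ) :
    Bd r (fun k => c * f k) (‖c‖ ^ r * B) := by
  intro n
  have : ∀ k, ‖c * f k‖ ^ r = ‖c‖ ^ r * ‖f k‖ ^ r := fun k => by
    rw [norm_mul, Real.mul_rpow (norm_nonneg _) (norm_nonneg _)]
  simp only [this]
  rw [← Finset.mul_sum]
  exact mul_le_mul_of_nonneg_left (h n) (Real.rpow_nonneg (norm_nonneg _) _)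

theorem Bd.add2 {f g : ℕ → ℂ} {B B' : ℝ} (h : Bd 2 f B) (h' : Bd 2 g B') :
    Bd 2 (fun k => f k + g k) (2 * B + 2 * B') := by
  intro n
  have key : ∀ k, ‖f k + g k‖ ^ (2:ℝ) ≤ 2 * ‖f k‖ ^ (2:ℝ) + 2 * ‖g k‖ ^ (2:ℝ) := by
    intro k
    simp only [Real.rpow_two]
    have h1 := norm_add_le (f k) (g k)
    have h2 : ‖f k + g k‖ ^ 2 ≤ (‖f k‖ + ‖g k‖) ^ 2 := pow_le_pow_left₀ (norm_nonneg _) h1 2
    nlinarith [sq_nonneg (‖f k‖ - ‖g k‖)]
  calc ∑ k ∈ Finset.range n, ‖f k + g k‖ ^ (2:ℝ)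
      ≤ ∑ k ∈ Finset.range n, (2 * ‖f k‖ ^ (2:ℝ) + 2 * ‖g k‖ ^ (2:ℝ)) :=
        Finset.sum_le_sum (fun k _ => key k)
    _ = 2 * ∑ k ∈ Finset.range n, ‖f k‖ ^ (2:ℝ) + 2 * ∑ k ∈ Finset.range n, ‖g k‖ ^ (2:ℝ) := by
        rw [Finset.sum_add_distrib, Finset.mul_sum, Finset.mul_sum]
    _ ≤ 2 * B + 2 * B' := by
        have := h n
        have := h' n
        linarith

/-- shifting -/
theorem Bd.shift {r : ℝ} (hr : 0 < r) {P : ℂ[X]} {B : ℝ} (h : Bd r P.coeff B) (D : ℕ) :
    Bd r (X ^ D * P).coeff B := by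
  intro n
  rcases le_or_gt n D with hn | hn
  · have : ∑ k ∈ Finset.range n, ‖(X ^ D * P).coeff k‖ ^ r = 0 := by
      refine Finset.sum_eq_zero (fun k hk => ?_)
      rw [Finset.mem_range] at hk
      rw [Polynomial.coeff_X_pow_mul', if_neg (by omega), norm_zero, Real.zero_rpow hr.ne']
    rw [this]
    exact h.nonneg
  · have h1 : ∑ k ∈ Finset.range n, ‖(X ^ D * P).coeff k‖ ^ r
        = ∑ k ∈ Finset.range (n - D), ‖P.coeff k‖ ^ r := by
      have e : n = D + (n - D) := by omega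
      conv_lhs => rw [e, Finset.sum_range_add]
      have h2 : ∑ k ∈ Finset.range D, ‖(X ^ D * P).coeff k‖ ^ r = 0 := by
        refine Finset.sum_eq_zero (fun k hk => ?_)
        rw [Finset.mem_range] at hk
        rw [Polynomial.coeff_X_pow_mul', if_neg (by omega), norm_zero, Real.zero_rpow hr.ne']
      rw [h2, zero_add]
      refine Finset.sum_congr rfl (fun k _ => ?_)
      rw [Polynomial.coeff_X_pow_mul', if_pos (by omega)]
      congr 3
      omega
    rw [h1]
    exact h _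

/-- a polynomial has bounded power sums -/
theorem exists_Bd (r : ℝ) (hr : 0 < r) (P : ℂ[X]) : ∃ B, 0 ≤ B ∧ Bd r P.coeff B := by
  refine ⟨∑ k ∈ Finset.range (P.natDegree + 1), ‖P.coeff k‖ ^ r,
    Finset.sum_nonneg fun k _ => Real.rpow_nonneg (norm_nonneg _) _, ?_⟩
  intro n
  rcases le_or_gt n (P.natDegree + 1) with hn | hn
  · exact Finset.sum_le_sum_of_subset_of_nonneg (Finset.range_mono hn)
      (fun k _ _ => Real.rpow_nonneg (norm_nonneg _) _)
  · apply le_of_eq
    symm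
    apply Finset.sum_subset (Finset.range_mono hn.le)
    intro k _ hk
    rw [Finset.mem_range, not_lt] at hk
    rw [Polynomial.coeff_eq_zero_of_natDegree_lt (by omega), norm_zero, Real.zero_rpow hr.ne']

/-- disjoint supports -/
theorem Bd.add_disj {r : ℝ} (hr : 0 < r) {P P' : ℂ[X]} {B B' : ℝ} (h : Bd r P.coeff B)
    (h' : Bd r P'.coeff B') (hd : ∀ k, P.coeff k = 0 ∨ P'.coeff k = 0) :
    Bd r (P + P').coeff (B + B') := by
  intro n
  have key : ∀ k, ‖(P + P').coeff k‖ ^ r = ‖P.coeff k‖ ^ r + ‖P'.coeff k‖ ^ r := by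
    intro k
    rw [Polynomial.coeff_add]
    rcases hd k with h0 | h0
    · rw [h0]; simp [Real.zero_rpow hr.ne']
    · rw [h0]; simp [Real.zero_rpow hr.ne']
  simp only [key]
  rw [Finset.sum_add_distrib]
  exact add_le_add (h n) (h' n)

theorem ITER_proved (hS : S_STEP) : S_ITER := by
  intro p hp1 hp2
  obtain ⟨C, hC, H⟩ := hS p hp1 hp2
  refine ⟨C, hC, ?_⟩
  have hp0 : 0 < p := by linarith
  have hq0 : 0 < p / (p - 1) := div_pos hp0 (by linarith)
  intro m R A F Q u B η a b hη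
  induction R generalizing η with
  | zero =>
    intro _ _
    refine ⟨0, fun _ => 0, by simp, by simp, ?_, ?_, ?_⟩
    · intro n; simp [Real.zero_rpow hq0.ne']
    · intro i n; simp [Real.zero_rpow hp0.ne']
    · intro i n
      have h0 : ∀ k, cor (A + 0) (F i + 0).coeff k - cor A (F i).coeff k
          - ∑ r ∈ Finset.range 0, cor (Q r) (u r i).coeff k = 0 := by
        intro k; simp
      show ∑ k ∈ Finset.range n, ‖cor (A + 0) (F i + 0).coeff k - cor A (F i).coeff k
          - ∑ r ∈ Finset.range 0, cor (Q r) (u r i).coeff k‖ ^ (2:ℝ) ≤ η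
      have h1 : ∀ k, ‖cor (A + 0) (F i + 0).coeff k - cor A (F i).coeff k
          - ∑ r ∈ Finset.range 0, cor (Q r) (u r i).coeff k‖ ^ (2:ℝ) = 0 := by
        intro k
        rw [h0 k, norm_zero, Real.zero_rpow (by norm_num)]
      rw [Finset.sum_eq_zero (fun k _ => h1 k)]
      exact hη.le
  | succ R ih =>
    intro ha hb
    obtain ⟨Q1, u1, h1, h2, h3, h4, h5⟩ := ih (η / 4) (by linarith)
      (fun r hr => ha r (by omega)) (fun r hr => hb r (by omega))
    set B1 : ℕ := B + Q1.natDegree + ∑ i, (u1 i).natDegree with hB1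
    obtain ⟨Q2, u2, g1, g2, g3, g4, g5⟩ := H m (A + Q1) (Q R) (fun i => F i + u1 i) (u R) B1 (η / 4)
      (by linarith)
    have hu1 : ∀ i, (u1 i).natDegree ≤ B1 := by
      intro i
      have := Finset.single_le_sum (f := fun i => (u1 i).natDegree) (fun i _ => Nat.zero_le _)
        (Finset.mem_univ i)
      omega
    refine ⟨Q1 + Q2, fun i => u1 i + u2 i, ?_, ?_, ?_, ?_, ?_⟩
    · intro k hk
      rw [Polynomial.coeff_add, h1 k hk, g1 k (by omega), add_zero]
    · intro i k hk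
      rw [Polynomial.coeff_add, h2 i k hk, g2 i k (by omega), add_zero]
    · rw [Finset.sum_range_succ]
      refine Bd.add_disj hq0 h3 (g3 _ (ha R (by omega))) (fun k => ?_)
      by_cases hk : k ≤ B1
      · exact Or.inr (g1 k hk)
      · exact Or.inl (Polynomial.coeff_eq_zero_of_natDegree_lt (by omega))
    · intro i
      rw [Finset.sum_range_succ, mul_add]
      refine Bd.add_disj hp0 (h4 i) (g4 i _ (hb R (by omega) i)) (fun k => ?_)
      by_cases hk : k ≤ B1
      · exact Or.inr (g2 i k hk)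
      · exact Or.inl (Polynomial.coeff_eq_zero_of_natDegree_lt (by have := hu1 i; omega))
    · intro i
      have h6 := Bd.add2 (h5 i) (g5 i)
      have h7 : 2 * (η / 4) + 2 * (η / 4) = η := by ring
      rw [h7] at h6
      convert h6 using 2 with k
      rw [Finset.sum_range_succ, ← add_assoc A Q1 Q2, ← add_assoc (F i) (u1 i) (u2 i)]
      ring

end HM
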