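import Pool.Agent.H67.HM.Stm

open Polynomial MeasureTheory Filter Topology

namespace HM

theorem EXP_proved : S_EXP := by
  intro p hp1 hpt
  have hp0 : 0 < p.toReal := by
    have : 1 ≤ p := hp1.out
    exact ENNReal.toReal_pos (by intro h; rw [h] at this; simp at this) hpt.ne
  have hpne : p ≠ 0 := by
    intro h; rw [h] at hp0; simp at hp0
  have key : ∀ s : ℂ, 0 < s.re →
      MemLp (fun x : ℝ => (x : ℂ) ^ (s - 1 / (p.toReal : ℂ))) p mu := by
    intro s hs
    have hm : AEStronglyMeasurable (fun x : ℝ => (x : ℂ) ^ (s - 1 / (p.toReal : ℂ))) mu := by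
      have : Measurable (fun x : ℝ => (x : ℂ) ^ (s - 1 / (p.toReal : ℂ))) :=
        (Complex.measurable_ofReal).pow_const _
      exact this.aestronglyMeasurable
    rw [← integrable_norm_rpow_iff hm hpne hpt.ne]
    have h1 : IntegrableOn (fun x : ℝ => x ^ (p.toReal * s.re - 1)) (Set.Icc (0:ℝ) 1) volume := by
      rw [integrableOn_Icc_iff_integrableOn_Ioc, ← intervalIntegrable_iff_integrableOn_Ioc_of_le
        (by norm_num)]
      apply intervalIntegral.intervalIntegrable_rpow'
      have := mul_pos hp0 hs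
      linarith
    have h2 : (fun x : ℝ => ‖(x : ℂ) ^ (s - 1 / (p.toReal : ℂ))‖ ^ p.toReal) =ᵐ[mu]
        fun x : ℝ => x ^ (p.toReal * s.re - 1) := by
      have h3 : ∀ᵐ x ∂mu, x ∈ Set.Ioc (0:ℝ) 1 := by
        unfold mu
        rw [← restrict_Ioc_eq_restrict_Icc]
        exact ae_restrict_mem measurableSet_Ioc
      filter_upwards [h3] with x hx
      rw [Complex.norm_cpow_eq_rpow_re_of_pos hx.1, ← Real.rpow_mul hx.1.le]
      congr 1
      have : (1 / (p.toReal : ℂ)).re = 1 / p.toReal := by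
        rw [show (1 / (p.toReal : ℂ)) = ((1 / p.toReal : ℝ) : ℂ) by push_cast; rfl]
        exact Complex.ofReal_re _
      rw [Complex.sub_re, this]
      field_simp
    exact (Integrable.congr h1 h2.symm)
  classical
  refine ⟨fun s => if h : 0 < s.re then MemLp.toLp _ (key s h) else 0, ?_⟩
  intro s hs
  simp only [dif_pos hs]
  exact MemLp.coeFn_toLp (key s hs)

theorem DUAL_proved : S_DUAL := by
  intro p hp1' hp1 hpt g hg
  classical
  have hp0 : 1 < p.toReal := by
    have := (ENNReal.toReal_lt_toReal ENNReal.one_ne_top hpt.ne).2 hp1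
    simpa using this
  set P : ℝ := p.toReal with hP
  have hP0 : 0 < P := by linarith
  set q : ℝ := P / (P - 1) with hq
  have hq1 : 1 < q := by
    rw [hq, lt_div_iff₀ (by linarith)]; linarith
  have hqP : (q - 1) * P = q := by
    have h1 : P - 1 ≠ 0 := by
      intro h; linarith
    rw [hq]; field_simp; ring
  set γ : ℕ → ℂ := fun k => g (lp.single p k (1:ℂ)) with hγ
  have hs : ∀ (k : ℕ) (a : ℂ), g (lp.single p k a) = γ k * a := by
    intro k a
    have h1 : lp.single (E := fun _ : ℕ => ℂ) p k a = a • lp.single (E := fun _ : ℕ => ℂ) p k (1:ℂ) := by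
      rw [← lp.single_smul]
      simp
    rw [h1, map_smul, smul_eq_mul, mul_comm]
  refine ⟨γ, ?_, ?_⟩
  · intro n
    set a : ℕ → ℂ := fun k => (starRingEnd ℂ) (γ k) * ((‖γ k‖ ^ (q - 2) : ℝ) : ℂ) with ha
    have ha1 : ∀ k, γ k * a k = ((‖γ k‖ ^ q : ℝ) : ℂ) := by
      intro k
      by_cases h0 : γ k = 0
      · simp [ha, h0, Real.zero_rpow (by linarith : q ≠ 0)]
      · have hpos : 0 < ‖γ k‖ := norm_pos_iff.2 h0
        simp only [ha]
        rw [← mul_assoc, Complex.mul_conj, Complex.normSq_eq_norm_sq, ← Complex.ofReal_mul,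
          ← Real.rpow_natCast, ← Real.rpow_add hpos]
        congr 2
        push_cast; ring
    have ha2 : ∀ k, ‖a k‖ ^ P = ‖γ k‖ ^ q := by
      intro k
      by_cases h0 : γ k = 0
      · simp [ha, h0, Real.zero_rpow (by linarith : q ≠ 0), Real.zero_rpow hP0.ne']
      · have hpos : 0 < ‖γ k‖ := norm_pos_iff.2 h0
        have : ‖a k‖ = ‖γ k‖ ^ (q - 1) := by
          simp only [ha]
          rw [norm_mul, RCLike.norm_conj, Complex.norm_real, Real.norm_eq_abs,
            abs_of_nonneg (Real.rpow_nonneg hpos.le _)]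
          conv_lhs => rw [← Real.rpow_one ‖γ k‖]
          rw [← Real.rpow_mul hpos.le, ← Real.rpow_add hpos]
          congr 1
          ring
        rw [this, ← Real.rpow_mul hpos.le, hqP]
    set S : ℝ := ∑ k ∈ Finset.range n, ‖γ k‖ ^ q with hS
    have hS0 : 0 ≤ S := Finset.sum_nonneg fun k _ => Real.rpow_nonneg (norm_nonneg _) _
    set b : lp (fun _ : ℕ => ℂ) p := ∑ k ∈ Finset.range n, lp.single p k (a k) with hb
    have hb1 : ‖b‖ ^ P = S := by
      rw [hb, hP, lp.norm_sum_single (by linarith : 0 < p.toReal) a (Finset.range n)]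
      exact Finset.sum_congr rfl (fun k _ => ha2 k)
    have hb2 : g b = (S : ℂ) := by
      rw [hb, map_sum, hS]
      push_cast
      refine Finset.sum_congr rfl (fun k _ => ?_)
      rw [hs, ha1]
    have hb3 : S ≤ ‖b‖ := by
      have h1 := g.le_opNorm b
      rw [hb2, Complex.norm_real, Real.norm_eq_abs, abs_of_nonneg hS0] at h1
      calc S ≤ ‖g‖ * ‖b‖ := h1
        _ ≤ 1 * ‖b‖ := mul_le_mul_of_nonneg_right hg (norm_nonneg _)
        _ = ‖b‖ := one_mul _
    have hb4 : S ^ P ≤ S := by
      calc S ^ P ≤ ‖b‖ ^ P := Real.rpow_le_rpow hS0 hb3 hP0.le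
        _ = S := hb1
    show S ≤ 1
    by_contra hcon
    push Not at hcon
    have h5 : S ^ (1:ℝ) < S ^ P := Real.rpow_lt_rpow_of_exponent_lt hcon hp0
    rw [Real.rpow_one] at h5
    linarith
  · intro b
    have h1 := lp.hasSum_single (E := fun _ : ℕ => ℂ) hpt.ne b
    have h2 := h1.mapL g
    simp only [hs] at h2
    exact h2

end HM
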